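import Pool.Agent.H.MP_5036fd_co.A

set_option autoImplicit false

namespace Pool.Agent.Results.MP_5036fd_co.Addr

open Finset Pool.Agent.H.MP_5036fd_co

theorem result (C δ : ℝ) (hδ : 0 < δ) : ∃ M ε : ℝ, 0 < M ∧ 0 < ε ∧ ε < δ ∧
    ∃ (ι : Type) (_ : Fintype ι) (_ : DecidableEq ι) (f : (ι → Bool) → Bool) (μ : ℝ),
      μ = pr (fun x => f x = true) ∧ 0 < μ ∧
      infl f ≤ 2 * μ * (Real.logb 2 (1 / μ) + M) ∧
      ∀ (g : (ι → Bool) → Bool) (J : Finset ι),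
        (∀ x y, (∀ j ∈ J, x j = y j) → g x = g y) → pr (fun x => f x ≠ g x) ≤ ε * μ →
        C * Real.logb 2 (1 / μ) * (2 : ℝ) ^ (M / ε) < J.card := by
  obtain ⟨t, ht⟩ := pow_unbounded_of_one_lt (1 / δ) (one_lt_two (α := ℝ))
  obtain ⟨s, hs⟩ := pow_unbounded_of_one_lt (4 * |C| * 2 ^ (2 * t)) (one_lt_two (α := ℝ))
  have h2 : (0 : ℝ) < 2 ^ t := by positivity
  have hl : Real.logb 2 (1 / (1 / 2)) = 1 := by norm_num
  refine ⟨(((3 * (s + 1) : ℕ) : ℝ) / 2 + t) / 2 ^ t, 3 / 4 / 2 ^ t, by positivity, by positivity,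
    ?_, _, inferInstance, inferInstance, ff (pp t (3 * (s + 1))), 1 / 2, (mu _).symm, by norm_num,
    ?_, ?_⟩
  · rw [div_lt_iff₀ h2]
    rw [div_lt_iff₀ hδ] at ht
    linarith
  · rw [hl]
    have := infl_le t (3 * (s + 1))
    linarith
  · intro g J hg he
    have e1 := err (pp t (3 * (s + 1))) g J hg
    have e2 := p3 t (3 * (s + 1)) J
    have h3 : (0 : ℝ) < 2 ^ (3 * (s + 1)) := by positivity
    have e3 : (2 ^ (3 * (s + 1)) - (J.card : ℝ)) / (2 ^ t * 2 ^ (3 * (s + 1))) ≤ 3 / 4 / 2 ^ t := by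
      linarith
    rw [div_le_div_iff₀ (by positivity) h2] at e3
    have e4 : (2 : ℝ) ^ (3 * (s + 1)) / 4 ≤ J.card := by nlinarith
    have e5 : (2 : ℝ) ^ ((((3 * (s + 1) : ℕ) : ℝ) / 2 + t) / 2 ^ t / (3 / 4 / 2 ^ t))
        ≤ 2 ^ (2 * (s + 1)) * 2 ^ (2 * t) := by
      rw [← pow_add, ← Real.rpow_natCast 2 (2 * (s + 1) + 2 * t)]
      refine Real.rpow_le_rpow_of_exponent_le one_le_two ?_
      rw [div_div_div_cancel_right₀ h2.ne']
      push_cast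
      have : (0 : ℝ) ≤ t := by positivity
      linarith
    rw [hl, mul_one]
    have e6 : (2 : ℝ) ^ (3 * (s + 1)) = 2 ^ (2 * (s + 1)) * (2 ^ s * 2) := by ring
    have h4 : (0 : ℝ) < 2 ^ (2 * (s + 1)) := by positivity
    have h5 : (0 : ℝ) < 2 ^ s := by positivity
    calc _ ≤ |C| * _ := mul_le_mul_of_nonneg_right (le_abs_self C) (by positivity)
      _ ≤ |C| * (2 ^ (2 * (s + 1)) * 2 ^ (2 * t)) := mul_le_mul_of_nonneg_left e5 (abs_nonneg C)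
      _ < 2 ^ (3 * (s + 1)) / 4 := by rw [e6]; nlinarith
      _ ≤ _ := e4

end Pool.Agent.Results.MP_5036fd_co.Addr
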